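import Pool.Agent.Lib.MP_15d78c_co.Ultra

set_option autoImplicit false

namespace Pool.Agent.Lib.MP_15d78c_co

theorem main_thm :
  ∀ (d : ℕ), 2 ≤ d →
  ∀ (R : Set (Finpartition (Finset.univ : Finset (Fin d)))), R.Nonempty →
  ∃ F : ℕ → ℕ, ∀ (l : ℕ) (K : Type) [Field K] (Q : Fin d → Type)
    [∀ α, Finite (Q α)] [∀ α, Nonempty (Q α)] (T : (∀ α, Q α) → K),
    (∀ k < l, ¬ ∃ S : Fin k → ((∀ α, Q α) → K),
        (∀ i, ∃ P ∈ R, ∃ a : ∀ I : Finset (Fin d), (∀ β : {γ // γ ∈ I}, Q β.1) → K,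
            ∀ x : (∀ α, Q α), S i x = ∏ I ∈ P.parts, a I (fun β => x β.1)) ∧
        T = ∑ i, S i) →
    ∃ X : ∀ α, Finset (Q α), (∀ α, (X α).card ≤ F l) ∧
      ∀ k < l, ¬ ∃ S : Fin k → ((∀ α, {q // q ∈ X α}) → K),
        (∀ i, ∃ P ∈ R, ∃ a : ∀ I : Finset (Fin d), (∀ β : {γ // γ ∈ I}, {q // q ∈ X β.1}) → K,
            ∀ y : (∀ α, {q // q ∈ X α}), S i y = ∏ I ∈ P.parts, a I (fun β => y β.1)) ∧
        (fun y => T (fun α => (y α).1)) = ∑ i, S i := by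
  classical
  intro d _ R _
  have hcore := fun l : ℕ => Pool.Agent.Lib.MP_15d78c_co.core (ι := Fin d)
    {σ : (Σ k : Fin l, (Fin k.1 → Finpartition (Finset.univ : Finset (Fin d)))) // ∀ i, σ.2 i ∈ R}
    (fun σ => Fin σ.1.1.1) (fun σ i => σ.1.2 i)
  choose F hF using hcore
  refine ⟨F, ?_⟩
  intro l K _ Q _ _ T hT
  by_contra hcon
  push Not at hcon
  obtain ⟨σ, a, ha1, ha2⟩ := hF l K Q T (by
    intro X hX
    obtain ⟨k, hk, S, hS1, hS2⟩ := hcon X hX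
    choose P hP a ha using hS1
    refine ⟨⟨⟨⟨k, hk⟩, P⟩, hP⟩, fun i I x =>
      if h : ∀ β ∈ I, x β ∈ X β then a i I (fun β => ⟨x β.1, h β.1 β.2⟩) else 0, ?_, ?_⟩
    · intro i I x y hxy
      by_cases h : ∀ β ∈ I, x β ∈ X β
      · have h' : ∀ β ∈ I, y β ∈ X β := fun β hβ => hxy β hβ ▸ h β hβ
        simp only [dif_pos h, dif_pos h']
        congr 1
        funext β
        exact Subtype.ext (hxy β.1 β.2)
      · have h' : ¬ ∀ β ∈ I, y β ∈ X β := fun h' => h fun β hβ => (hxy β hβ).symm ▸ h' β hβ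
        simp only [dif_neg h, dif_neg h']
    · intro x hx
      have h1 := congrFun hS2 (fun α => ⟨x α, hx α⟩)
      simp only [Finset.sum_apply, ha] at h1
      rw [h1]
      refine Finset.sum_congr rfl fun i _ => Finset.prod_congr rfl fun I _ => ?_
      have h : ∀ β ∈ I, x β ∈ X β := fun β _ => hx β
      simp only [dif_pos h])
  obtain ⟨⟨⟨k, hk⟩, P⟩, hP⟩ := σ
  apply hT k hk
  refine ⟨fun i x => ∏ I ∈ (P i).parts, a i I x, fun i => ⟨P i, hP i, fun I z => a i I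
    (fun α => if h : α ∈ I then z ⟨α, h⟩ else Classical.arbitrary (Q α)), fun x => ?_⟩, ?_⟩
  · refine Finset.prod_congr rfl fun I _ => ?_
    apply ha1
    intro α hα
    simp only [dif_pos hα]
  · funext x
    rw [ha2 x, Finset.sum_apply]

end Pool.Agent.Lib.MP_15d78c_co
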