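import Mathlib

set_option autoImplicit false

namespace Pool.Agent.Lib.MP_15d78c_co

open Finset

section Retract

variable {ι : Type} [DecidableEq ι] {Q : ι → Type} {K : Type} [Field K]

/-- `f` depends only on the coordinates in `I`. -/
def Dep (I : Finset ι) {β : Type} (f : (∀ α, Q α) → β) : Prop :=
  ∀ x y : (∀ α, Q α), (∀ α ∈ I, x α = y α) → f x = f y

/-- freeze the coordinates outside `L` to those of `y`. -/
def ev (L : Finset ι) (y : ∀ α, Q α) {β : Type} (f : (∀ α, Q α) → β) : (∀ α, Q α) → β :=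
  fun x => f (L.piecewise x y)

omit [DecidableEq ι] in
lemma Dep.mono {I J : Finset ι} {β : Type} {f : (∀ α, Q α) → β} (h : Dep I f) (hIJ : I ⊆ J) :
    Dep J f := fun x y hxy => h x y fun α hα => hxy α (hIJ hα)

lemma Dep.ev {I : Finset ι} {β : Type} {f : (∀ α, Q α) → β} (h : Dep I f) (L : Finset ι)
    (y : ∀ α, Q α) : Dep (I ∩ L) (ev L y f) := by
  intro x x' hx
  apply h
  intro α hα
  by_cases hL : α ∈ L
  · rw [piecewise_eq_of_mem _ _ _ hL, piecewise_eq_of_mem _ _ _ hL]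
    exact hx α (mem_inter.2 ⟨hα, hL⟩)
  · rw [piecewise_eq_of_notMem _ _ _ hL, piecewise_eq_of_notMem _ _ _ hL]

lemma Dep.ev_eq {I : Finset ι} {β : Type} {f : (∀ α, Q α) → β} (h : Dep I f) {L : Finset ι}
    (hIL : I ⊆ L) (y : ∀ α, Q α) : MP_15d78c_co.ev L y f = f := by
  funext x
  apply h
  intro α hα
  rw [piecewise_eq_of_mem _ _ _ (hIL hα)]

lemma Dep.ev_const {I : Finset ι} {β : Type} {f : (∀ α, Q α) → β} (h : Dep I f) {L : Finset ι}
    (hIL : Disjoint I L) (y : ∀ α, Q α) : MP_15d78c_co.ev L y f = fun _ => f y := by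
  funext x
  apply h
  intro α hα
  rw [piecewise_eq_of_notMem _ _ _ (Finset.disjoint_left.1 hIL hα)]

lemma Dep.mul {I J : Finset ι} {f g : (∀ α, Q α) → K} (hf : Dep I f) (hg : Dep J g) :
    Dep (I ∪ J) (f * g) := by
  intro x y hxy
  simp only [Pi.mul_apply]
  rw [hf x y fun α hα => hxy α (mem_union_left _ hα), hg x y fun α hα => hxy α (mem_union_right _ hα)]

omit [DecidableEq ι] in
lemma Dep.add {I : Finset ι} {f g : (∀ α, Q α) → K} (hf : Dep I f) (hg : Dep I g) :
    Dep I (f + g) := by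
  intro x y hxy
  simp only [Pi.add_apply]
  rw [hf x y hxy, hg x y hxy]

/-- A multiplicative linear map, given by its graph, from an evaluation-closed family of
subspaces onto `A`, fixing `A`. -/
structure Good (A : Finset ι → Submodule K ((∀ α, Q α) → K))
    (G : Finset ι → Submodule K (((∀ α, Q α) → K) × ((∀ α, Q α) → K))) : Prop where
  func : ∀ I r, (0, r) ∈ G I → r = 0
  fix : ∀ I a, a ∈ A I → (a, a) ∈ G I
  rng : ∀ I p, p ∈ G I → p.2 ∈ A I
  dep : ∀ I p, p ∈ G I → Dep I p.1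
  mul : ∀ I J p q, Disjoint I J → p ∈ G I → q ∈ G J → p * q ∈ G (I ∪ J)
  evc : ∀ I L y p, p ∈ G I → ∃ r, (ev L y p.1, r) ∈ G (I ∩ L)

/-- one-step extension -/
def ext1 (G : Finset ι → Submodule K (((∀ α, Q α) → K) × ((∀ α, Q α) → K))) (I : Finset ι)
    (g : (∀ α, Q α) → K) (J : Finset ι) : Submodule K (((∀ α, Q α) → K) × ((∀ α, Q α) → K)) where
  carrier := {p | ∃ b r, (b, r) ∈ G (J \ I) ∧ (I ⊆ J ∨ b = 0) ∧ (p.1 - g * b, p.2) ∈ G J}
  zero_mem' := ⟨0, 0, (G _).zero_mem, Or.inr rfl, by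
    have : ((0 : ((∀ α, Q α) → K) × ((∀ α, Q α) → K)).1 - g * 0,
      (0 : ((∀ α, Q α) → K) × ((∀ α, Q α) → K)).2) = 0 := by simp
    rw [this]
    exact (G J).zero_mem⟩
  add_mem' := by
    rintro p q ⟨b, r, h1, h2, h3⟩ ⟨b', r', h1', h2', h3'⟩
    refine ⟨b + b', r + r', (G _).add_mem h1 h1', ?_, ?_⟩
    · rcases h2 with h2 | h2
      · exact Or.inl h2
      · rcases h2' with h2' | h2'
        · exact Or.inl h2'
        · right; rw [h2, h2', add_zero]
    · have := (G J).add_mem h3 h3'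
      convert this using 1
      ext x
      · simp; ring
      · simp
  smul_mem' := by
    rintro c p ⟨b, r, h1, h2, h3⟩
    refine ⟨c • b, c • r, (G _).smul_mem c h1, ?_, ?_⟩
    · rcases h2 with h2 | h2
      · exact Or.inl h2
      · right; rw [h2, smul_zero]
    · have := (G J).smul_mem c h3
      convert this using 1
      ext x
      · simp; ring
      · simp

lemma mem_ext1 {G : Finset ι → Submodule K (((∀ α, Q α) → K) × ((∀ α, Q α) → K))} {I : Finset ι}
    {g : (∀ α, Q α) → K} {J : Finset ι} {p : ((∀ α, Q α) → K) × ((∀ α, Q α) → K)} :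
    p ∈ ext1 G I g J ↔ ∃ b r, (b, r) ∈ G (J \ I) ∧ (I ⊆ J ∨ b = 0) ∧ (p.1 - g * b, p.2) ∈ G J :=
  Iff.rfl

lemma le_ext1 (G : Finset ι → Submodule K (((∀ α, Q α) → K) × ((∀ α, Q α) → K))) (I : Finset ι)
    (g : (∀ α, Q α) → K) (J : Finset ι) : G J ≤ ext1 G I g J := by
  intro p hp
  exact mem_ext1.2 ⟨0, 0, (G _).zero_mem, Or.inr rfl, by simpa using hp⟩

lemma ext1_good {A : Finset ι → Submodule K ((∀ α, Q α) → K)}
    {G : Finset ι → Submodule K (((∀ α, Q α) → K) × ((∀ α, Q α) → K))} (hG : Good A G)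
    {I : Finset ι} (hI : I.Nonempty) {g : (∀ α, Q α) → K} (hg : Dep I g)
    (hng : ¬ ∃ r, (g, r) ∈ G I)
    (hmin : ∀ I', I' ⊂ I → ∀ f, Dep I' f → ∃ r, (f, r) ∈ G I') : Good A (ext1 G I g) := by
  have mulL : ∀ J J' p q, Disjoint J J' → p ∈ ext1 G I g J → q ∈ G J' →
      p * q ∈ ext1 G I g (J ∪ J') := by
    intro J J' p q hd hp hq
    obtain ⟨b, r, h1, h2, h3⟩ := mem_ext1.1 hp
    have h4 := hG.mul _ _ _ _ hd h3 hq
    rcases h2 with h2 | h2
    · have hd' : Disjoint (J \ I) J' := hd.mono_left sdiff_subset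
      have h5 := hG.mul _ _ _ _ hd' h1 hq
      have he : (J \ I) ∪ J' = (J ∪ J') \ I := by
        have : Disjoint J' I := (hd.symm).mono_right h2
        rw [union_sdiff_distrib, Finset.sdiff_eq_self_of_disjoint this]
      rw [he] at h5
      refine mem_ext1.2 ⟨b * q.1, r * q.2, h5, Or.inl (h2.trans subset_union_left), ?_⟩
      convert h4 using 1
      ext x
      · simp; ring
      · simp
    · subst h2
      apply le_ext1
      simpa using h4
  refine ⟨?_, ?_, ?_, ?_, ?_, ?_⟩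
  · intro J r hr
    obtain ⟨b, r', h1, h2, h3⟩ := mem_ext1.1 hr
    by_cases hb : b = 0
    · subst hb
      exact hG.func J r (by simpa using h3)
    · exfalso
      have hIJ : I ⊆ J := h2.resolve_right hb
      obtain ⟨y, hy⟩ : ∃ y, b y ≠ 0 := by
        by_contra hcon
        push Not at hcon
        exact hb (funext hcon)
      obtain ⟨r'', h4⟩ := hG.evc _ I y _ h3
      rw [inter_eq_right.2 hIJ] at h4
      have hbd : Dep (J \ I) b := hG.dep _ _ h1
      have e1 := hg.ev_eq (subset_refl I) y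
      have e2 := hbd.ev_const (L := I) sdiff_disjoint y
      have h5 := (G I).smul_mem (-(b y)⁻¹) h4
      apply hng
      refine ⟨(-(b y)⁻¹) • r'', ?_⟩
      convert h5 using 1
      ext x
      · have a1 := congrFun e1 x
        have a2 := congrFun e2 x
        simp only [MP_15d78c_co.ev] at a1 a2
        simp [MP_15d78c_co.ev, a1, a2]
        field_simp
      · simp
  · intro J a ha
    exact le_ext1 _ _ _ _ (hG.fix J a ha)
  · intro J p hp
    obtain ⟨b, r', h1, h2, h3⟩ := mem_ext1.1 hp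
    exact hG.rng _ (p.1 - g * b, p.2) h3
  · intro J p hp
    obtain ⟨b, r', h1, h2, h3⟩ := mem_ext1.1 hp
    have h4 : Dep J (p.1 - g * b) := hG.dep _ _ h3
    rcases h2 with h2 | h2
    · have h5 : Dep (I ∪ (J \ I)) (g * b) := hg.mul (hG.dep _ _ h1)
      have h6 : Dep J (g * b) := h5.mono (union_subset h2 sdiff_subset)
      have := h4.add h6
      simpa using this
    · subst h2
      simpa using h4
  · intro J J' p q hd hp hq
    by_cases hJ' : I ⊆ J'
    · have hJ : ¬ I ⊆ J := by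
        intro hJ
        obtain ⟨α, hα⟩ := hI
        exact Finset.disjoint_left.1 hd (hJ hα) (hJ' hα)
      obtain ⟨b, r, h1, h2, h3⟩ := mem_ext1.1 hp
      have hb : b = 0 := h2.resolve_left hJ
      subst hb
      have hp' : p ∈ G J := by simpa using h3
      have := mulL J' J q p hd.symm hq hp'
      rwa [union_comm, mul_comm] at this
    · obtain ⟨b, r, h1, h2, h3⟩ := mem_ext1.1 hq
      have hb : b = 0 := h2.resolve_left hJ'
      subst hb
      have hq' : q ∈ G J' := by simpa using h3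
      exact mulL J J' p q hd hp hq'
  · intro J L y p hp
    obtain ⟨b, r, h1, h2, h3⟩ := mem_ext1.1 hp
    obtain ⟨r3, h3'⟩ := hG.evc _ L y _ h3
    rcases h2 with h2 | h2
    · obtain ⟨r1, h1'⟩ := hG.evc _ L y _ h1
      by_cases hIL : I ⊆ L
      · have he : (J \ I) ∩ L = (J ∩ L) \ I := by
          ext α; simp only [mem_inter, mem_sdiff]; tauto
        rw [he] at h1'
        refine ⟨r3, mem_ext1.2 ⟨_, r1, h1', Or.inl (subset_inter h2 hIL), ?_⟩⟩
        convert h3' using 2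
        have e1 := hg.ev_eq hIL y
        funext x
        have a1 := congrFun e1 x
        simp only [MP_15d78c_co.ev] at a1
        simp [MP_15d78c_co.ev, a1]
      · have hlt : I ∩ L ⊂ I := by
          refine ⟨inter_subset_left, fun h => hIL fun α hα => (mem_inter.1 (h hα)).2⟩
        obtain ⟨r4, h4⟩ := hmin _ hlt _ (hg.ev L y)
        have hd : Disjoint (I ∩ L) ((J \ I) ∩ L) := by
          rw [Finset.disjoint_left]
          intro α h5 h6
          exact (mem_sdiff.1 (mem_inter.1 h6).1).2 (mem_inter.1 h5).1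
        have h5 := hG.mul _ _ _ _ hd h4 h1'
        have he : (I ∩ L) ∪ ((J \ I) ∩ L) = J ∩ L := by
          ext α
          have := @h2 α
          simp only [mem_inter, mem_sdiff, mem_union]; tauto
        rw [he] at h5
        have h6 := (G _).add_mem h3' h5
        refine ⟨r3 + r4 * r1, le_ext1 _ _ _ _ ?_⟩
        convert h6 using 1
        ext x
        · simp [MP_15d78c_co.ev]
        · simp
    · subst h2
      refine ⟨r3, le_ext1 _ _ _ _ ?_⟩
      simpa using h3'

theorem exists_retract [∀ α, Nonempty (Q α)] (A : Finset ι → Submodule K ((∀ α, Q α) → K))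
    (hdep : ∀ I f, f ∈ A I → Dep I f) (hone : (1 : (∀ α, Q α) → K) ∈ A ∅)
    (hmul : ∀ I J f g, Disjoint I J → f ∈ A I → g ∈ A J → f * g ∈ A (I ∪ J))
    (hev : ∀ I L y f, f ∈ A I → ev L y f ∈ A (I ∩ L)) :
    ∃ G, Good A G ∧ ∀ I f, Dep I f → ∃ r, (f, r) ∈ G I := by
  let G0 : Finset ι → Submodule K (((∀ α, Q α) → K) × ((∀ α, Q α) → K)) := fun I =>
    (A I).map (LinearMap.prod LinearMap.id LinearMap.id)
  have mem0 : ∀ I p, p ∈ G0 I ↔ p.1 ∈ A I ∧ p.2 = p.1 := by
    intro I p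
    constructor
    · rintro ⟨a, ha, rfl⟩
      exact ⟨ha, rfl⟩
    · rintro ⟨h1, h2⟩
      exact ⟨p.1, h1, Prod.ext rfl h2.symm⟩
  have hG0 : Good A G0 := by
    refine ⟨?_, ?_, ?_, ?_, ?_, ?_⟩
    · intro I r hr
      exact ((mem0 _ _).1 hr).2
    · intro I a ha
      exact (mem0 _ _).2 ⟨ha, rfl⟩
    · intro I p hp
      obtain ⟨h1, h2⟩ := (mem0 _ _).1 hp
      rwa [h2]
    · intro I p hp
      exact hdep _ _ ((mem0 _ _).1 hp).1
    · intro I J p q hd hp hq
      obtain ⟨h1, h2⟩ := (mem0 _ _).1 hp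
      obtain ⟨h3, h4⟩ := (mem0 _ _).1 hq
      refine (mem0 _ _).2 ⟨hmul _ _ _ _ hd h1 h3, ?_⟩
      simp [h2, h4]
    · intro I L y p hp
      exact ⟨_, (mem0 _ _).2 ⟨hev _ _ _ _ ((mem0 _ _).1 hp).1, rfl⟩⟩
  obtain ⟨G, -, hmax⟩ := zorn_le_nonempty₀ {G | Good A G} (by
    intro c hc hchain G1 hG1
    have : Nonempty c := ⟨⟨G1, hG1⟩⟩
    have hdir : ∀ I, Directed (· ≤ ·) (fun H : c => H.1 I) := by
      intro I H H'
      rcases hchain.total H.2 H'.2 with h | h
      · exact ⟨H', h I, le_rfl⟩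
      · exact ⟨H, le_rfl, h I⟩
    have hmem : ∀ I p, p ∈ (⨆ H : c, H.1 I) ↔ ∃ H : c, p ∈ H.1 I := fun I p =>
      Submodule.mem_iSup_of_directed _ (hdir I)
    refine ⟨fun I => ⨆ H : c, H.1 I, ⟨?_, ?_, ?_, ?_, ?_, ?_⟩, ?_⟩
    · intro I r hr
      obtain ⟨H, hH⟩ := (hmem _ _).1 hr
      exact (hc H.2).func _ _ hH
    · intro I a ha
      exact (hmem _ _).2 ⟨⟨G1, hG1⟩, (hc hG1).fix _ _ ha⟩
    · intro I p hp
      obtain ⟨H, hH⟩ := (hmem _ _).1 hp
      exact (hc H.2).rng _ _ hH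
    · intro I p hp
      obtain ⟨H, hH⟩ := (hmem _ _).1 hp
      exact (hc H.2).dep _ _ hH
    · intro I J p q hd hp hq
      obtain ⟨H, hH⟩ := (hmem _ _).1 hp
      obtain ⟨H', hH'⟩ := (hmem _ _).1 hq
      rcases hchain.total H.2 H'.2 with h | h
      · exact (hmem _ _).2 ⟨H', (hc H'.2).mul _ _ _ _ hd (h I hH) hH'⟩
      · exact (hmem _ _).2 ⟨H, (hc H.2).mul _ _ _ _ hd hH (h J hH')⟩
    · intro I L y p hp
      obtain ⟨H, hH⟩ := (hmem _ _).1 hp
      obtain ⟨r, hr⟩ := (hc H.2).evc _ L y _ hH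
      exact ⟨r, (hmem _ _).2 ⟨H, hr⟩⟩
    · intro H hH I
      exact le_iSup (fun H : c => H.1 I) ⟨H, hH⟩) G0 hG0
  have hG : Good A G := hmax.prop
  refine ⟨G, hG, ?_⟩
  intro I
  induction I using Finset.strongInduction with
  | H I ih =>
    intro g hg
    by_contra hng
    rcases I.eq_empty_or_nonempty with rfl | hI
    · apply hng
      obtain ⟨y⟩ : Nonempty (∀ α, Q α) := inferInstance
      have h1 := (G ∅).smul_mem (g y) (hG.fix _ _ hone)
      refine ⟨(g y) • 1, ?_⟩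
      convert h1 using 1
      ext x
      · simp
        exact hg x y (by simp)
      · simp
    · have h1 := ext1_good hG hI hg hng ih
      have h2 : ext1 G I g ≤ G := hmax.le_of_ge h1 (fun J => le_ext1 G I g J)
      apply hng
      refine ⟨0, h2 I (mem_ext1.2 ⟨1, 1, ?_, Or.inl (subset_refl _), ?_⟩)⟩
      · rw [sdiff_self]
        exact hG.fix _ _ hone
      · have : ((g, (0 : (∀ α, Q α) → K)).1 - g * 1, (g, (0 : (∀ α, Q α) → K)).2) = 0 := by simp
        rw [this]
        exact (G I).zero_mem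

lemma Good.prod_mem {A : Finset ι → Submodule K ((∀ α, Q α) → K)}
    {G : Finset ι → Submodule K (((∀ α, Q α) → K) × ((∀ α, Q α) → K))} (hG : Good A G)
    (hone : (1 : (∀ α, Q α) → K) ∈ A ∅) (s : Finset (Finset ι))
    (hs : (s : Set (Finset ι)).PairwiseDisjoint id)
    (p : Finset ι → ((∀ α, Q α) → K) × ((∀ α, Q α) → K)) (hp : ∀ I ∈ s, p I ∈ G I) :
    ∏ I ∈ s, p I ∈ G (s.sup id) := by
  induction s using Finset.induction_on with
  | empty =>
    rw [prod_empty, sup_empty]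
    exact hG.fix _ _ hone
  | insert I s hI ih =>
    rw [prod_insert hI, sup_insert]
    apply hG.mul
    · rw [Finset.disjoint_sup_right]
      intro J hJ
      apply hs (by simp) (by simp [hJ])
      rintro rfl
      exact hI hJ
    · exact hp I (by simp)
    · apply ih (hs.subset (by simp))
      intro J hJ
      exact hp J (by simp [hJ])

/-- Any decomposition of an element of `A univ` can be replaced by one of the same shape with all
factors in `A`. -/
theorem dec_in_A [Fintype ι] [∀ α, Nonempty (Q α)] (A : Finset ι → Submodule K ((∀ α, Q α) → K))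
    (hdep : ∀ I f, f ∈ A I → Dep I f) (hone : (1 : (∀ α, Q α) → K) ∈ A ∅)
    (hmul : ∀ I J f g, Disjoint I J → f ∈ A I → g ∈ A J → f * g ∈ A (I ∪ J))
    (hev : ∀ I L y f, f ∈ A I → ev L y f ∈ A (I ∩ L))
    {κ : Type} [Fintype κ] (P : κ → Finpartition (univ : Finset ι))
    (T : (∀ α, Q α) → K) (hT : T ∈ A univ) (a : κ → Finset ι → (∀ α, Q α) → K)
    (ha : ∀ i I, Dep I (a i I)) (hdec : T = ∑ i, ∏ I ∈ (P i).parts, a i I) :
    ∃ r : κ → Finset ι → (∀ α, Q α) → K, (∀ i I, r i I ∈ A I) ∧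
      T = ∑ i, ∏ I ∈ (P i).parts, r i I := by
  obtain ⟨G, hG, htot⟩ := exists_retract A hdep hone hmul hev
  choose r hr using fun i I => htot I (a i I) (ha i I)
  refine ⟨r, fun i I => hG.rng _ _ (hr i I), ?_⟩
  have h1 : ∀ i, ∏ I ∈ (P i).parts, (a i I, r i I) ∈ G univ := by
    intro i
    have := hG.prod_mem hone (P i).parts (P i).disjoint (fun I => (a i I, r i I))
      (fun I _ => hr i I)
    rwa [(P i).sup_parts] at this
  have h2 : ∑ i, ∏ I ∈ (P i).parts, (a i I, r i I) ∈ G univ :=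
    Submodule.sum_mem _ fun i _ => h1 i
  have h3 := (G univ).sub_mem (hG.fix _ _ hT) h2
  have h4 : ((T, T) - ∑ i, ∏ I ∈ (P i).parts, (a i I, r i I)) =
      (0, T - ∑ i, ∏ I ∈ (P i).parts, r i I) := by
    ext1
    · simp [Prod.fst_sum, Prod.fst_prod, ← hdec]
    · simp [Prod.snd_sum, Prod.snd_prod]
  rw [h4] at h3
  exact sub_eq_zero.1 (hG.func _ _ h3)

end Retract

end Pool.Agent.Lib.MP_15d78c_co
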