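import Mathlib
import Pool.Agent.Lib.MP_15d78c_co.Retract

set_option autoImplicit false

namespace Pool.Agent.Lib.MP_15d78c_co

open Finset Filter

/-- the ultraproduct of a family of fields -/
theorem exists_ultraproduct {W : Type} (U : Ultrafilter W) (F : W → Type) [∀ w, Field (F w)] :
    ∃ (K : Type) (_ : Field K) (π : (∀ w, F w) →+* K), Function.Surjective π ∧
      ∀ f g, π f = π g ↔ ∀ᶠ w in (U : Filter W), f w = g w := by
  let M : Ideal (∀ w, F w) :=
    { carrier := {f | ∀ᶠ w in (U : Filter W), f w = 0}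
      zero_mem' := by simp
      add_mem' := by
        intro f g hf hg
        simp only [Set.mem_ofPred_eq] at hf hg ⊢
        filter_upwards [hf, hg] with w h1 h2
        simp [h1, h2]
      smul_mem' := by
        intro c f hf
        simp only [Set.mem_ofPred_eq] at hf ⊢
        filter_upwards [hf] with w h1
        simp [h1] }
  have hM : ∀ f, f ∈ M ↔ ∀ᶠ w in (U : Filter W), f w = 0 := fun f => Iff.rfl
  have hmax : M.IsMaximal := by
    rw [Ideal.isMaximal_iff]
    constructor
    · rw [hM]
      intro h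
      obtain ⟨w, hw⟩ := h.exists
      simp at hw
    · intro J f hMJ hf hfJ
      rw [hM] at hf
      have hf' : ∀ᶠ w in (U : Filter W), ¬ f w = 0 := Ultrafilter.eventually_not.2 hf
      have h1 : (1 - (fun w => (f w)⁻¹) * f : ∀ w, F w) ∈ M := by
        rw [hM]
        filter_upwards [hf'] with w hw
        simp [inv_mul_cancel₀ hw]
      have h2 := J.add_mem (hMJ h1) (J.mul_mem_left (fun w => (f w)⁻¹) hfJ)
      simpa using h2
  refine ⟨(∀ w, F w) ⧸ M, Ideal.Quotient.field M, Ideal.Quotient.mk M,
    Ideal.Quotient.mk_surjective, ?_⟩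
  intro f g
  rw [Ideal.Quotient.eq, hM]
  simp [sub_eq_zero]

/-- finitely many test points detect the vanishing of linear combinations -/
theorem exists_test_points {F : Type} [Field F] {Ω : Type} [Nonempty Ω] {J : Type} [Fintype J]
    (f : J → Ω → F) : ∃ pts : Fin (Fintype.card J) → Ω, ∀ c : J → F,
      (∀ m, ∑ j, c j * f j (pts m) = 0) → ∀ x, ∑ j, c j * f j x = 0 := by
  classical
  let v : Ω → (J → F) := fun x j => f j x
  obtain ⟨b, hb1, hb2, -⟩ := Submodule.exists_fun_fin_finrank_span_eq F (Set.range v)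
  choose y hy using hb1
  have hle : Module.finrank F (Submodule.span F (Set.range v)) ≤ Fintype.card J := by
    have := Submodule.finrank_le (Submodule.span F (Set.range v))
    simpa using this
  refine ⟨fun m => if h : m.1 < Module.finrank F (Submodule.span F (Set.range v)) then y ⟨m.1, h⟩
    else Classical.arbitrary Ω, ?_⟩
  intro c hc x
  let φ : (J → F) →ₗ[F] F :=
    { toFun := fun u => ∑ j, c j * u j
      map_add' := by intro u u'; simp [mul_add, Finset.sum_add_distrib]
      map_smul' := by intro a u; simp [Finset.mul_sum, mul_left_comm] }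
  have h1 : Submodule.span F (Set.range b) ≤ LinearMap.ker φ := by
    rw [Submodule.span_le]
    rintro _ ⟨m, rfl⟩
    have := hc ⟨m.1, lt_of_lt_of_le m.2 hle⟩
    simp only [m.2, dite_true] at this
    rw [← hy m]
    exact this
  rw [hb2] at h1
  exact h1 (Submodule.subset_span ⟨x, rfl⟩)

/-- families of functions that are finite combinations of functions depending only on the level -/
def UF {W L : Type} (N : W → L) (F : L → Type) [∀ n, Field (F n)] (Ω : L → Type) :
    Subring (∀ w, Ω (N w) → F (N w)) where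
  carrier := {g | ∃ (J : Type) (_ : Fintype J) (c : J → ∀ w, F (N w)) (f : J → ∀ n, Ω n → F n),
    ∀ w x, g w x = ∑ j, c j w * f j (N w) x}
  zero_mem' := ⟨Empty, inferInstance, fun j => j.elim, fun j => j.elim, by simp⟩
  one_mem' := ⟨Unit, inferInstance, fun _ _ => 1, fun _ _ _ => 1, by simp⟩
  add_mem' := by
    rintro g g' ⟨J, _, c, f, h⟩ ⟨J', _, c', f', h'⟩
    refine ⟨J ⊕ J', inferInstance, Sum.elim c c', Sum.elim f f', ?_⟩
    intro w x
    simp [h, h']
  neg_mem' := by
    rintro g ⟨J, _, c, f, h⟩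
    refine ⟨J, inferInstance, fun j w => - c j w, f, ?_⟩
    intro w x
    simp [h]
  mul_mem' := by
    rintro g g' ⟨J, _, c, f, h⟩ ⟨J', _, c', f', h'⟩
    refine ⟨J × J', inferInstance, fun j w => c j.1 w * c' j.2 w,
      fun j n x => f j.1 n x * f' j.2 n x, ?_⟩
    intro w x
    simp only [Pi.mul_apply, h, h', Finset.sum_mul_sum, Fintype.sum_prod_type]
    refine Finset.sum_congr rfl fun j _ => Finset.sum_congr rfl fun j' _ => ?_
    ring

theorem UF.vanish {W L : Type} (U : Ultrafilter W) (N : W → L) (F : L → Type) [∀ n, Field (F n)]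
    (Ω : L → Type) [∀ n, Nonempty (Ω n)] (g : ∀ w, Ω (N w) → F (N w)) (hg : g ∈ UF N F Ω)
    (h : ∀ x : ∀ n, Ω n, ∀ᶠ w in (U : Filter W), g w (x (N w)) = 0) : ∃ w, g w = 0 := by
  obtain ⟨J, _, c, f, hf⟩ := hg
  choose pts hpts using fun n => exists_test_points (fun j => f j n)
  have h1 : ∀ᶠ w in (U : Filter W), ∀ m, g w (pts (N w) m) = 0 := by
    rw [Filter.eventually_all]
    intro m
    exact h (fun n => pts n m)
  obtain ⟨w, hw⟩ := h1.exists
  refine ⟨w, funext fun x => ?_⟩
  rw [hf]
  apply hpts (N w) (fun j => c j w)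
  intro m
  rw [← hf]
  exact hw m

/-- compactness for decompositions of finitely many shapes -/
theorem core {ι : Type} [DecidableEq ι] [Fintype ι] (S : Type) [Finite S] (κ : S → Type)
    [∀ σ, Fintype (κ σ)] (P : ∀ σ, κ σ → Finpartition (univ : Finset ι)) :
    ∃ N : ℕ, ∀ (K : Type) [Field K] (Q : ι → Type) [∀ α, Nonempty (Q α)] (T : (∀ α, Q α) → K),
      (∀ X : ∀ α, Finset (Q α), (∀ α, (X α).card ≤ N) →
        ∃ σ, ∃ a : κ σ → Finset ι → (∀ α, Q α) → K, (∀ i I, Dep I (a i I)) ∧
          ∀ x, (∀ α, x α ∈ X α) → T x = ∑ i, ∏ I ∈ (P σ i).parts, a i I x) →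
      ∃ σ, ∃ a : κ σ → Finset ι → (∀ α, Q α) → K, (∀ i I, Dep I (a i I)) ∧
          ∀ x, T x = ∑ i, ∏ I ∈ (P σ i).parts, a i I x := by
  classical
  by_contra hcon
  push Not at hcon
  choose K instK Q instQ T hbox hnot using hcon
  let Qs : ι → Type := fun α => ∀ n, Q n α
  have instQs : ∀ α, Nonempty (Qs α) := fun α => ⟨fun n => Classical.arbitrary (Q n α)⟩
  let W : Type := ∀ α, Finset (Qs α)
  let N : W → ℕ := fun w => ∑ α, (w α).card
  let pr : ∀ n, (∀ α, Qs α) → (∀ α, Q n α) := fun n x α => x α n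
  obtain ⟨U, hU⟩ := Ultrafilter.exists_le (atTop : Filter W)
  obtain ⟨Ks, instKs, π, hsurj, hπ⟩ := exists_ultraproduct U (fun w => K (N w))
  have hX : ∀ w : W, ∀ α, ((w α).image (fun z => z (N w))).card ≤ N w := by
    intro w α
    refine card_image_le.trans ?_
    exact Finset.single_le_sum (f := fun α => (w α).card) (fun _ _ => Nat.zero_le _) (mem_univ α)
  choose σ a0 ha0 hT0 using fun w : W =>
    hbox (N w) (fun α => (w α).image (fun z => z (N w))) (hX w)
  obtain ⟨σ0, hσ0⟩ := Ultrafilter.eq_pure_of_finite (U.map σ)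
  have hσ : ∀ᶠ w in (U : Filter W), σ w = σ0 := by
    have : {σ0} ∈ U.map σ := by rw [hσ0]; simp
    exact this
  have ha : ∀ w : W, ∃ a : κ σ0 → Finset ι → (∀ α, Q (N w) α) → K (N w),
      (∀ i I, Dep I (a i I)) ∧ (σ w = σ0 → ∀ x, (∀ α, x α ∈ (w α).image (fun z => z (N w))) →
        T (N w) x = ∑ i, ∏ I ∈ (P σ0 i).parts, a i I x) := by
    intro w
    by_cases h : σ w = σ0
    · subst h
      exact ⟨a0 w, ha0 w, fun _ => hT0 w⟩
    · exact ⟨fun _ _ _ => 0, fun _ _ _ _ _ => rfl, fun h' => (h h').elim⟩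
  choose a ha1 ha2 using ha
  let star : (∀ n, (∀ α, Q n α) → K n) → (∀ α, Qs α) → Ks :=
    fun f x => π (fun w => f (N w) (pr (N w) x))
  let A : Finset ι → Submodule Ks ((∀ α, Qs α) → Ks) := fun I =>
    Submodule.span Ks {g | ∃ f, (∀ n, Dep I (f n)) ∧ g = star f}
  have hdep : ∀ I g, g ∈ A I → Dep I g := by
    intro I g hg
    induction hg using Submodule.span_induction with
    | mem g hg =>
      obtain ⟨f, hf, rfl⟩ := hg
      intro x y hxy
      simp only [star]
      congr 1
      funext w
      apply hf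
      intro α hα
      simp only [pr]
      rw [hxy α hα]
    | zero => intro x y _; rfl
    | add g g' _ _ h1 h2 => exact h1.add h2
    | smul c g _ h1 =>
      intro x y hxy
      simp only [Pi.smul_apply]
      rw [h1 x y hxy]
  have hone : (1 : (∀ α, Qs α) → Ks) ∈ A ∅ := by
    apply Submodule.subset_span
    refine ⟨fun _ _ => 1, fun _ _ _ _ => rfl, ?_⟩
    funext x
    exact (map_one π).symm
  have hmul : ∀ I J f g, Disjoint I J → f ∈ A I → g ∈ A J → f * g ∈ A (I ∪ J) := by
    intro I J f g _ hf hg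
    induction hf using Submodule.span_induction with
    | mem f hf =>
      induction hg using Submodule.span_induction with
      | mem g hg =>
        obtain ⟨f', hf', rfl⟩ := hf
        obtain ⟨g', hg', rfl⟩ := hg
        apply Submodule.subset_span
        refine ⟨fun n => f' n * g' n, fun n => (hf' n).mul (hg' n), ?_⟩
        funext x
        simp only [star, Pi.mul_apply]
        rw [← map_mul]
        rfl
      | zero => rw [mul_zero]; exact Submodule.zero_mem _
      | add g g' _ _ h1 h2 => rw [mul_add]; exact Submodule.add_mem _ h1 h2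
      | smul c g _ h1 => rw [mul_smul_comm]; exact Submodule.smul_mem _ c h1
    | zero => rw [zero_mul]; exact Submodule.zero_mem _
    | add f f' _ _ h1 h2 => rw [add_mul]; exact Submodule.add_mem _ h1 h2
    | smul c f _ h1 => rw [smul_mul_assoc]; exact Submodule.smul_mem _ c h1
  have hev : ∀ I L y f, f ∈ A I → ev L y f ∈ A (I ∩ L) := by
    intro I L y f hf
    induction hf using Submodule.span_induction with
    | mem f hf =>
      obtain ⟨f', hf', rfl⟩ := hf
      apply Submodule.subset_span
      refine ⟨fun n => ev L (pr n y) (f' n), fun n => (hf' n).ev L _, ?_⟩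
      funext x
      simp only [star, ev]
      congr 1
      funext w
      congr 1
      funext α
      by_cases hα : α ∈ L
      · simp only [pr, piecewise_eq_of_mem _ _ _ hα]
      · simp only [pr, piecewise_eq_of_notMem _ _ _ hα]
    | zero => exact Submodule.zero_mem _
    | add f f' _ _ h1 h2 => exact Submodule.add_mem _ h1 h2
    | smul c f _ h1 => exact Submodule.smul_mem _ c h1
  have hTs : star T ∈ A univ := by
    apply Submodule.subset_span
    refine ⟨T, fun n x y hxy => ?_, rfl⟩
    congr 1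
    funext α
    exact hxy α (mem_univ α)
  let as : κ σ0 → Finset ι → (∀ α, Qs α) → Ks := fun i I x => π (fun w => a w i I (pr (N w) x))
  have has : ∀ i I, Dep I (as i I) := by
    intro i I x y hxy
    simp only [as]
    congr 1
    funext w
    apply ha1
    intro α hα
    simp only [pr]
    rw [hxy α hα]
  have hdec : star T = ∑ i, ∏ I ∈ (P σ0 i).parts, as i I := by
    funext x
    simp only [star, as, Finset.sum_apply, Finset.prod_apply]
    simp only [← map_prod, ← map_sum]
    rw [hπ]
    have h1 : ∀ᶠ w in (U : Filter W), (fun α => ({x α} : Finset (Qs α))) ≤ w :=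
      hU (eventually_ge_atTop _)
    filter_upwards [hσ, h1] with w h2 h3
    simp only [Finset.sum_apply, Finset.prod_apply]
    apply ha2 w h2
    intro α
    exact mem_image_of_mem _ (h3 α (mem_singleton_self _))
  obtain ⟨r, hr1, hr2⟩ := dec_in_A A hdep hone hmul hev (P σ0) (star T) hTs as has hdec
  have hr3 : ∀ i I, ∃ g : ∀ w, (∀ α, Q (N w) α) → K (N w),
      g ∈ UF N K (fun n => ∀ α, Q n α) ∧ (∀ w, Dep I (g w)) ∧
        ∀ x, r i I x = π (fun w => g w (pr (N w) x)) := by
    intro i I
    have h := hr1 i I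
    generalize r i I = s at h
    induction h using Submodule.span_induction with
    | mem s hs =>
      obtain ⟨f, hf, rfl⟩ := hs
      refine ⟨fun w => f (N w), ⟨Unit, inferInstance, fun _ _ => 1, fun _ => f, by simp⟩,
        fun w => hf _, fun x => rfl⟩
    | zero => exact ⟨0, Subring.zero_mem _, fun _ _ _ _ => rfl, fun x => (map_zero π).symm⟩
    | add s s' _ _ h1 h2 =>
      obtain ⟨g, hg1, hg2, hg3⟩ := h1
      obtain ⟨g', hg1', hg2', hg3'⟩ := h2
      refine ⟨g + g', Subring.add_mem _ hg1 hg1', fun w => (hg2 w).add (hg2' w), fun x => ?_⟩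
      rw [Pi.add_apply, hg3, hg3', ← map_add]
      rfl
    | smul c s _ h1 =>
      obtain ⟨g, hg1, hg2, hg3⟩ := h1
      obtain ⟨l, rfl⟩ := hsurj c
      have hl : (fun w _ => l w) ∈ UF N K (fun n => ∀ α, Q n α) :=
        ⟨Unit, inferInstance, fun _ => l, fun _ _ _ => 1, by simp⟩
      refine ⟨(fun w _ => l w) * g, Subring.mul_mem _ hl hg1, fun w x y hxy => ?_, fun x => ?_⟩
      · simp only [Pi.mul_apply]
        rw [hg2 w x y hxy]
      · rw [Pi.smul_apply, hg3, smul_eq_mul, ← map_mul]
        rfl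
  choose g hg1 hg2 hg3 using hr3
  have hTU : (fun w => T (N w)) ∈ UF N K (fun n => ∀ α, Q n α) :=
    ⟨Unit, inferInstance, fun _ _ => 1, fun _ => T, by simp⟩
  have hΦ : ((fun w => T (N w)) - ∑ i, ∏ I ∈ (P σ0 i).parts, g i I) ∈
      UF N K (fun n => ∀ α, Q n α) :=
    Subring.sub_mem _ hTU (Subring.sum_mem _ fun i _ => Subring.prod_mem _ fun I _ => hg1 i I)
  obtain ⟨w, hw⟩ := UF.vanish U N K (fun n => ∀ α, Q n α) _ hΦ (by
    intro x
    have h1 := congrFun hr2 (fun α n => x n α)
    simp only [star, Finset.sum_apply, Finset.prod_apply, hg3] at h1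
    simp only [← map_prod, ← map_sum] at h1
    rw [hπ] at h1
    filter_upwards [h1] with w h2
    simp only [Finset.sum_apply, Finset.prod_apply] at h2
    simp only [Pi.sub_apply, Finset.sum_apply, Finset.prod_apply]
    exact sub_eq_zero.2 h2)
  obtain ⟨x, hx⟩ := hnot (N w) σ0 (fun i I => g i I w) (fun i I => hg2 i I w)
  apply hx
  have h1 := congrFun hw x
  simp only [Pi.sub_apply, Finset.sum_apply, Finset.prod_apply, Pi.zero_apply] at h1
  exact sub_eq_zero.1 h1

end Pool.Agent.Lib.MP_15d78c_co
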